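import Pool.Agent.Helper87.PG.Stmts

/-! Row EQG (MP_39dd1a_ag, project PG): the functor on block diagonal and antidiagonal maps. -/

set_option autoImplicit false

namespace Pool.Agent.Helper87.PG

open MvPolynomial Pool.Agent.Helper48.VMRT Pool.Agent.Helper87.VM Pool.Agent.Helper87.TC
open scoped Kronecker Matrix

namespace EQG88

section Lin

variable {κ κ' κ'' μ μ' : Type}

/-- third tensor power of a rectangular matrix -/
def t3 (A : Matrix κ κ' ℂ) : Matrix (Fin 3 → κ) (Fin 3 → κ') ℂ :=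
  Matrix.of fun I J => ∏ j, A (I j) (J j)

theorem t3_apply (A : Matrix κ κ' ℂ) (I : Fin 3 → κ) (J : Fin 3 → κ') :
    t3 A I J = ∏ j, A (I j) (J j) := rfl

theorem sum3 [Fintype κ] (F : Fin 3 → κ → ℂ) :
    ∑ J : Fin 3 → κ, ∏ j, F j (J j) = ∏ j, ∑ k, F j k := by
  classical
  rw [Finset.prod_univ_sum, Fintype.piFinset_univ]

theorem key1 [Fintype κ] [Fintype μ] (F : Fin 3 → κ → ℂ) (G : μ → ℂ) :
    ∑ x : (Fin 3 → κ) × μ, (∏ j, F j (x.1 j)) * G x.2 = (∏ j, ∑ k, F j k) * ∑ l, G l := by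
  rw [← sum3, Fintype.sum_prod_type, Finset.sum_mul_sum]

theorem key2 [Fintype κ] [Fintype μ] (F : κ → ℂ) (G : Fin 3 → μ → ℂ) :
    ∑ x : κ × (Fin 3 → μ), F x.1 * ∏ j, G j (x.2 j) = (∑ k, F k) * ∏ j, ∑ l, G j l := by
  rw [← sum3, Fintype.sum_prod_type, Finset.sum_mul_sum]

theorem t3_zero : t3 (0 : Matrix κ κ' ℂ) = 0 := by
  ext I J
  rw [t3_apply, Fin.prod_univ_three]
  simp

variable {κα κβ : Type}

/-- first off-diagonal block -/
def XX (B : Matrix κα κβ ℂ) (C : Matrix κβ κα ℂ) :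
    Matrix ((Fin 3 → κα) × κβ) (κα × (Fin 3 → κβ)) ℂ :=
  Matrix.of fun x y => (∏ j, B (x.1 j) (y.2 j)) * C x.2 y.1

/-- second off-diagonal block -/
def YY (B : Matrix κα κβ ℂ) (C : Matrix κβ κα ℂ) :
    Matrix (κα × (Fin 3 → κβ)) ((Fin 3 → κα) × κβ) ℂ :=
  Matrix.of fun x y => B x.1 y.2 * ∏ j, C (x.2 j) (y.1 j)

/-- first diagonal block -/
def PP (A : Matrix κα κα ℂ) (D : Matrix κβ κβ ℂ) :
    Matrix ((Fin 3 → κα) × κβ) ((Fin 3 → κα) × κβ) ℂ :=
  Matrix.of fun x y => (∏ j, A (x.1 j) (y.1 j)) * D x.2 y.2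

/-- second diagonal block -/
def QQ (A : Matrix κα κα ℂ) (D : Matrix κβ κβ ℂ) :
    Matrix (κα × (Fin 3 → κβ)) (κα × (Fin 3 → κβ)) ℂ :=
  Matrix.of fun x y => A x.1 y.1 * ∏ j, D (x.2 j) (y.2 j)

section Mul
variable [Fintype κα] [Fintype κβ] (A A' : Matrix κα κα ℂ) (D D' : Matrix κβ κβ ℂ)
  (B B' : Matrix κα κβ ℂ) (C C' : Matrix κβ κα ℂ)

theorem PP_PP : PP A D * PP A' D' = PP (A * A') (D * D') := by
  ext x y
  simp only [PP, Matrix.mul_apply, Matrix.of_apply]
  rw [← key1 (fun j k => A (x.1 j) k * A' k (y.1 j)) (fun l => D x.2 l * D' l y.2)]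
  refine Finset.sum_congr rfl fun z _ => ?_
  rw [Finset.prod_mul_distrib]
  ring

theorem PP_XX : PP A D * XX B C = XX (A * B) (D * C) := by
  ext x y
  simp only [PP, XX, Matrix.mul_apply, Matrix.of_apply]
  rw [← key1 (fun j k => A (x.1 j) k * B k (y.2 j)) (fun l => D x.2 l * C l y.1)]
  refine Finset.sum_congr rfl fun z _ => ?_
  rw [Finset.prod_mul_distrib]
  ring

theorem QQ_QQ : QQ A D * QQ A' D' = QQ (A * A') (D * D') := by
  ext x y
  simp only [QQ, Matrix.mul_apply, Matrix.of_apply]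
  rw [← key2 (fun l => A x.1 l * A' l y.1) (fun j k => D (x.2 j) k * D' k (y.2 j))]
  refine Finset.sum_congr rfl fun z _ => ?_
  rw [Finset.prod_mul_distrib]
  ring

theorem QQ_YY : QQ A D * YY B C = YY (A * B) (D * C) := by
  ext x y
  simp only [QQ, YY, Matrix.mul_apply, Matrix.of_apply]
  rw [← key2 (fun l => A x.1 l * B l y.2) (fun j k => D (x.2 j) k * C k (y.1 j))]
  refine Finset.sum_congr rfl fun z _ => ?_
  rw [Finset.prod_mul_distrib]
  ring

theorem XX_QQ : XX B C * QQ A D = XX (B * D) (C * A) := by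
  ext x y
  simp only [QQ, XX, Matrix.mul_apply, Matrix.of_apply]
  rw [mul_comm (∏ j, ∑ k, B (x.1 j) k * D k (y.2 j)),
    ← key2 (fun l => C x.2 l * A l y.1) (fun j k => B (x.1 j) k * D k (y.2 j))]
  refine Finset.sum_congr rfl fun z _ => ?_
  rw [Finset.prod_mul_distrib]
  ring

theorem YY_PP : YY B C * PP A D = YY (B * D) (C * A) := by
  ext x y
  simp only [PP, YY, Matrix.mul_apply, Matrix.of_apply]
  rw [mul_comm (∑ k, B x.1 k * D k y.2),
    ← key1 (fun j k => C (x.2 j) k * A k (y.1 j)) (fun l => B x.1 l * D l y.2)]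
  refine Finset.sum_congr rfl fun z _ => ?_
  rw [Finset.prod_mul_distrib]
  ring

theorem XX_YY : XX B C * YY B' C' = PP (B * C') (C * B') := by
  ext x y
  simp only [PP, XX, YY, Matrix.mul_apply, Matrix.of_apply]
  rw [mul_comm (∏ j, ∑ k, B (x.1 j) k * C' k (y.1 j)),
    ← key2 (fun l => C x.2 l * B' l y.2) (fun j k => B (x.1 j) k * C' k (y.1 j))]
  refine Finset.sum_congr rfl fun z _ => ?_
  rw [Finset.prod_mul_distrib]
  ring

theorem YY_XX : YY B C * XX B' C' = QQ (B * C') (C * B') := by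
  ext x y
  simp only [QQ, XX, YY, Matrix.mul_apply, Matrix.of_apply]
  rw [mul_comm (∑ k, B x.1 k * C' k y.1),
    ← key1 (fun j k => C (x.2 j) k * B' k (y.2 j)) (fun l => B x.1 l * C' l y.1)]
  refine Finset.sum_congr rfl fun z _ => ?_
  rw [Finset.prod_mul_distrib]
  ring

end Mul

theorem PP_z (A : Matrix κα κα ℂ) : PP A (0 : Matrix κβ κβ ℂ) = 0 := by
  ext x y
  simp [PP]

theorem QQ_z (D : Matrix κβ κβ ℂ) : QQ (0 : Matrix κα κα ℂ) D = 0 := by
  ext x y
  simp [QQ]

theorem XX_z (B : Matrix κα κβ ℂ) : XX B (0 : Matrix κβ κα ℂ) = 0 := by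
  ext x y
  simp [XX]

theorem YY_z (C : Matrix κβ κα ℂ) : YY (0 : Matrix κα κβ ℂ) C = 0 := by
  ext x y
  simp [YY]

/-- the functor on matrices -/
def NN (M : Matrix (κα ⊕ κβ) (κα ⊕ κβ) ℂ) : Matrix (KK κα κβ) (KK κα κβ) ℂ :=
  Matrix.fromBlocks (PP M.toBlocks₁₁ M.toBlocks₂₂) (XX M.toBlocks₁₂ M.toBlocks₂₁)
    (YY M.toBlocks₁₂ M.toBlocks₂₁) (QQ M.toBlocks₁₁ M.toBlocks₂₂)

theorem NN_from (A : Matrix κα κα ℂ) (B : Matrix κα κβ ℂ) (C : Matrix κβ κα ℂ)
    (D : Matrix κβ κβ ℂ) : NN (Matrix.fromBlocks A B C D) =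
      Matrix.fromBlocks (PP A D) (XX B C) (YY B C) (QQ A D) := rfl

/-- block diagonal or antidiagonal -/
def DA (M : Matrix (κα ⊕ κβ) (κα ⊕ κβ) ℂ) : Prop :=
  (M.toBlocks₁₂ = 0 ∧ M.toBlocks₂₁ = 0) ∨ (M.toBlocks₁₁ = 0 ∧ M.toBlocks₂₂ = 0)

theorem NN_mul [Fintype κα] [Fintype κβ] (M M' : Matrix (κα ⊕ κβ) (κα ⊕ κβ) ℂ) (h : DA M)
    (h' : DA M') : NN (M * M') = NN M * NN M' := by
  obtain ⟨A, B, C, D, rfl⟩ : ∃ A B C D, M = Matrix.fromBlocks A B C D :=
    ⟨_, _, _, _, (Matrix.fromBlocks_toBlocks M).symm⟩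
  obtain ⟨A', B', C', D', rfl⟩ : ∃ A B C D, M' = Matrix.fromBlocks A B C D :=
    ⟨_, _, _, _, (Matrix.fromBlocks_toBlocks M').symm⟩
  unfold DA at h h'
  simp only [Matrix.toBlocks_fromBlocks₁₁, Matrix.toBlocks_fromBlocks₁₂,
    Matrix.toBlocks_fromBlocks₂₁, Matrix.toBlocks_fromBlocks₂₂] at h h'
  rcases h with ⟨rfl, rfl⟩ | ⟨rfl, rfl⟩ <;> rcases h' with ⟨rfl, rfl⟩ | ⟨rfl, rfl⟩ <;>
    simp only [Matrix.fromBlocks_multiply, NN_from, Matrix.mul_zero, Matrix.zero_mul, add_zero,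
      zero_add, PP_z, QQ_z, XX_z, YY_z, PP_PP, PP_XX, QQ_QQ, QQ_YY, XX_QQ, YY_PP, XX_YY, YY_XX]

theorem NN_smul (a : ℂ) (M : Matrix (κα ⊕ κβ) (κα ⊕ κβ) ℂ) : NN (a • M) = a ^ 4 • NN M := by
  ext x y
  rcases x with x | x <;> rcases y with y | y <;>
    simp only [NN, Matrix.fromBlocks_apply₁₁, Matrix.fromBlocks_apply₁₂,
      Matrix.fromBlocks_apply₂₁, Matrix.fromBlocks_apply₂₂, Matrix.smul_apply, PP, QQ, XX, YY,
      Matrix.of_apply, Matrix.toBlocks₁₁, Matrix.toBlocks₁₂, Matrix.toBlocks₂₁,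
      Matrix.toBlocks₂₂, Fin.prod_univ_three, smul_eq_mul] <;> ring

theorem NN_diag [DecidableEq κα] [DecidableEq κβ] (d : ℂ) (hd : d ^ 2 = 1) :
    NN (Matrix.fromBlocks (1 : Matrix κα κα ℂ) 0 0 (d • (1 : Matrix κβ κβ ℂ))) = d • 1 := by
  have hd3 : d ^ 3 = d := by
    rw [pow_succ, hd, one_mul]
  rw [NN_from, XX_z, YY_z, ← Matrix.fromBlocks_one, Matrix.fromBlocks_smul]
  congr 1
  · ext x y
    obtain ⟨I, l⟩ := x
    obtain ⟨J, m⟩ := y
    simp only [PP, Matrix.of_apply, Matrix.smul_apply, Matrix.one_apply, Prod.mk.injEq]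
    by_cases h : I = J
    · subst h
      simp
    · obtain ⟨j, hj⟩ := Function.ne_iff.1 h
      rw [Finset.prod_eq_zero (Finset.mem_univ j) (by rw [if_neg hj]), zero_mul,
        if_neg (by tauto), smul_zero]
  · simp
  · simp
  · ext x y
    obtain ⟨l, I⟩ := x
    obtain ⟨m, J⟩ := y
    simp only [QQ, Matrix.of_apply, Matrix.smul_apply, Matrix.one_apply, Prod.mk.injEq]
    by_cases h : I = J
    · subst h
      simp only [smul_eq_mul, and_true, if_true, mul_one, Finset.prod_const, Finset.card_univ,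
        Fintype.card_fin, hd3]
      ring
    · obtain ⟨j, hj⟩ := Function.ne_iff.1 h
      rw [Finset.prod_eq_zero (Finset.mem_univ j) (by rw [if_neg hj, smul_zero]), mul_zero,
        if_neg (by tauto), smul_zero]

end Lin

section Main

variable {κα κβ : Type} [Fintype κα] [Fintype κβ]

theorem mb_DA [DecidableEq κα] [DecidableEq κβ] (γ : (κα ⊕ κβ → ℂ) →ₗ[ℂ] (κα ⊕ κβ → ℂ))
    (h : MB γ) : DA (LinearMap.toMatrix' γ) := by
  have hl : ∀ i : κα, sg (Pi.single (Sum.inl i) (1 : ℂ) : κα ⊕ κβ → ℂ) =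
      Pi.single (Sum.inl i) 1 := by
    intro i
    funext k
    rcases k with k | k <;> simp [sg, pl, qr, Pi.single_apply]
  have hr : ∀ i : κβ, sg (Pi.single (Sum.inr i) (1 : ℂ) : κα ⊕ κβ → ℂ) =
      -Pi.single (Sum.inr i) 1 := by
    intro i
    funext k
    rcases k with k | k <;> simp [sg, pl, qr, Pi.single_apply]
  have hself : ∀ z : ℂ, z = -z → z = 0 := by
    intro z hz
    have : (2 : ℂ) * z = 0 := by linear_combination hz
    simpa using this
  rcases h with h | h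
  · left
    constructor
    · ext i l
      have h1 := congrFun (h (Pi.single (Sum.inr l) 1)) (Sum.inl i)
      rw [hr, map_neg] at h1
      simp only [Matrix.toBlocks₁₂, Matrix.of_apply, LinearMap.toMatrix'_apply, Matrix.zero_apply]
      refine hself _ ?_
      have h2 : sg (γ (Pi.single (Sum.inr l) 1)) (Sum.inl i) =
          γ (Pi.single (Sum.inr l) 1) (Sum.inl i) := rfl
      rw [h2] at h1
      exact h1.symm
    · ext l i
      have h1 := congrFun (h (Pi.single (Sum.inl i) 1)) (Sum.inr l)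
      rw [hl] at h1
      simp only [Matrix.toBlocks₂₁, Matrix.of_apply, LinearMap.toMatrix'_apply, Matrix.zero_apply]
      refine hself _ ?_
      exact h1
  · right
    constructor
    · ext i l
      have h1 := congrFun (h (Pi.single (Sum.inl l) 1)) (Sum.inl i)
      rw [hl] at h1
      simp only [Matrix.toBlocks₁₁, Matrix.of_apply, LinearMap.toMatrix'_apply, Matrix.zero_apply]
      refine hself _ ?_
      exact h1
    · ext l i
      have h1 := congrFun (h (Pi.single (Sum.inr i) 1)) (Sum.inr l)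
      rw [hr, map_neg] at h1
      simp only [Matrix.toBlocks₂₂, Matrix.of_apply, LinearMap.toMatrix'_apply, Matrix.zero_apply]
      refine hself _ ?_
      have h2 : (-sg (γ (Pi.single (Sum.inr i) 1))) (Sum.inr l) =
          - -γ (Pi.single (Sum.inr i) 1) (Sum.inr l) := rfl
      rw [h2, neg_neg] at h1
      exact h1.symm

end Main

end EQG88

open EQG88

/-- row EQG -/
theorem st_EQG : ST_EQG := by
  classical
  intro κα κβ _ _
  refine ⟨fun γ => Matrix.toLin' (NN (LinearMap.toMatrix' γ)), ?_, ?_, ?_, ?_, ?_, ?_⟩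
  · intro γ hγ y
    have hda := mb_DA γ hγ
    have hM : ∀ y, LinearMap.toMatrix' γ *ᵥ y = γ y := fun y => by
      rw [← Matrix.toLin'_apply, Matrix.toLin'_toMatrix']
    have hy : γ y = LinearMap.toMatrix' γ *ᵥ y := (hM y).symm
    show Matrix.toLin' (NN (LinearMap.toMatrix' γ)) (ev Psi y) = ev Psi (γ y)
    rw [hy]
    clear hM hy hγ
    generalize LinearMap.toMatrix' γ = M at hda ⊢
    obtain ⟨A, B, C, D, rfl⟩ : ∃ A B C D, M = Matrix.fromBlocks A B C D :=
      ⟨_, _, _, _, (Matrix.fromBlocks_toBlocks M).symm⟩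
    unfold DA at hda
    simp only [Matrix.toBlocks_fromBlocks₁₁, Matrix.toBlocks_fromBlocks₁₂,
      Matrix.toBlocks_fromBlocks₂₁, Matrix.toBlocks_fromBlocks₂₂] at hda
    rw [Matrix.toLin'_apply, NN_from, Matrix.fromBlocks_mulVec, Matrix.fromBlocks_mulVec]
    rcases hda with ⟨rfl, rfl⟩ | ⟨rfl, rfl⟩
    · rw [XX_z, YY_z]
      simp only [Matrix.zero_mulVec, add_zero, zero_add]
      funext i
      rcases i with ⟨I, l⟩ | ⟨l, I⟩
      · simp only [Sum.elim_inl, Matrix.mulVec, dotProduct, PP, Matrix.of_apply,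
          Function.comp_apply, ev, Psi, map_mul, eval_X, Sum.elim_inr]
        rw [← Fin.prod_univ_three (fun j => ∑ x, A (I j) x * y (Sum.inl x)),
          ← key1 (fun j x => A (I j) x * y (Sum.inl x)) (fun x => D l x * y (Sum.inr x))]
        refine Finset.sum_congr rfl fun z _ => ?_
        simp only [Fin.prod_univ_three]
        ring
      · simp only [Sum.elim_inl, Matrix.mulVec, dotProduct, QQ, Matrix.of_apply,
          Function.comp_apply, ev, Psi, map_mul, eval_X, Sum.elim_inr]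
        rw [← Fin.prod_univ_three (fun j => ∑ x, D (I j) x * y (Sum.inr x)),
          ← key2 (fun x => A l x * y (Sum.inl x)) (fun j x => D (I j) x * y (Sum.inr x))]
        refine Finset.sum_congr rfl fun z _ => ?_
        simp only [Fin.prod_univ_three]
        ring
    · rw [PP_z, QQ_z]
      simp only [Matrix.zero_mulVec, add_zero, zero_add]
      funext i
      rcases i with ⟨I, l⟩ | ⟨l, I⟩
      · simp only [Sum.elim_inl, Matrix.mulVec, dotProduct, XX, Matrix.of_apply,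
          Function.comp_apply, ev, Psi, map_mul, eval_X, Sum.elim_inr]
        rw [← Fin.prod_univ_three (fun j => ∑ x, B (I j) x * y (Sum.inr x)), mul_comm,
          ← key2 (fun x => C l x * y (Sum.inl x)) (fun j x => B (I j) x * y (Sum.inr x))]
        refine Finset.sum_congr rfl fun z _ => ?_
        simp only [Fin.prod_univ_three]
        ring
      · simp only [Sum.elim_inl, Matrix.mulVec, dotProduct, YY, Matrix.of_apply,
          Function.comp_apply, ev, Psi, map_mul, eval_X, Sum.elim_inr]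
        rw [← Fin.prod_univ_three (fun j => ∑ x, C (I j) x * y (Sum.inl x)), mul_comm,
          ← key1 (fun j x => C (I j) x * y (Sum.inl x)) (fun x => B l x * y (Sum.inr x))]
        refine Finset.sum_congr rfl fun z _ => ?_
        simp only [Fin.prod_univ_three]
        ring
  · intro γ γ' h h'
    show Matrix.toLin' (NN (LinearMap.toMatrix' (γ ∘ₗ γ'))) =
      Matrix.toLin' (NN (LinearMap.toMatrix' γ)) ∘ₗ Matrix.toLin' (NN (LinearMap.toMatrix' γ'))
    rw [LinearMap.toMatrix'_comp, NN_mul _ _ (mb_DA γ h) (mb_DA γ' h'), Matrix.toLin'_mul]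
  · intro a γ
    show Matrix.toLin' (NN (LinearMap.toMatrix' (a • γ))) =
      a ^ 4 • Matrix.toLin' (NN (LinearMap.toMatrix' γ))
    rw [map_smul, NN_smul, map_smul]
  · show Matrix.toLin' (NN (LinearMap.toMatrix' (LinearMap.id))) = LinearMap.id
    rw [LinearMap.toMatrix'_id, ← Matrix.fromBlocks_one]
    have := NN_diag (κα := κα) (κβ := κβ) 1 (by norm_num)
    rw [one_smul, one_smul] at this
    rw [this, Matrix.toLin'_one]
  · intro γ h
    have h1 : LinearMap.toMatrix' γ =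
        Matrix.fromBlocks (1 : Matrix κα κα ℂ) 0 0 ((-1 : ℂ) • (1 : Matrix κβ κβ ℂ)) := by
      ext x y
      rw [LinearMap.toMatrix'_apply, h]
      rcases x with x | x <;> rcases y with y | y <;>
        simp [sg, pl, qr, Pi.single_apply, Matrix.one_apply]
    show Matrix.toLin' (NN (LinearMap.toMatrix' γ)) = -LinearMap.id
    rw [h1, NN_diag (-1) (by norm_num), map_smul, Matrix.toLin'_one]
    refine LinearMap.ext fun x => ?_
    show (-1 : ℂ) • x = -x
    rw [neg_smul, one_smul]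
  · intro γ h w hw
    have hda := mb_DA γ h
    show Matrix.toLin' (NN (LinearMap.toMatrix' γ)) w ∈ Bd κα κβ
    generalize LinearMap.toMatrix' γ = M at hda ⊢
    obtain ⟨A, B, C, D, rfl⟩ : ∃ A B C D, M = Matrix.fromBlocks A B C D :=
      ⟨_, _, _, _, (Matrix.fromBlocks_toBlocks M).symm⟩
    unfold DA at hda
    simp only [Matrix.toBlocks_fromBlocks₁₁, Matrix.toBlocks_fromBlocks₁₂,
      Matrix.toBlocks_fromBlocks₂₁, Matrix.toBlocks_fromBlocks₂₂] at hda
    rw [Matrix.toLin'_apply, NN_from, Matrix.fromBlocks_mulVec]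
    rcases hw with hw | hw
    · have h0 : w ∘ Sum.inl = 0 := by
        funext i
        exact hw i
      rw [h0]
      rcases hda with ⟨rfl, rfl⟩ | ⟨rfl, rfl⟩
      · left
        intro a
        simp only [Sum.elim_inl, Matrix.mulVec_zero, XX_z, Matrix.zero_mulVec, add_zero,
          Pi.zero_apply]
      · right
        intro a
        simp only [Sum.elim_inr, Matrix.mulVec_zero, QQ_z, Matrix.zero_mulVec, add_zero,
          Pi.zero_apply]
    · have h0 : w ∘ Sum.inr = 0 := by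
        funext i
        exact hw i
      rw [h0]
      rcases hda with ⟨rfl, rfl⟩ | ⟨rfl, rfl⟩
      · right
        intro a
        simp only [Sum.elim_inr, Matrix.mulVec_zero, YY_z, Matrix.zero_mulVec, add_zero,
          Pi.zero_apply]
      · left
        intro a
        simp only [Sum.elim_inl, Matrix.mulVec_zero, PP_z, Matrix.zero_mulVec, add_zero,
          Pi.zero_apply]

end Pool.Agent.Helper87.PG

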